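import Pool.Agent.R187.WC.Adm

/-!
MP_6a3dac_ag: regular proper flat models over the ring of integers of coverings of projective
spaces attached to monogenic extensions of number fields, in every dimension.

The weighted forms `F(w, y_0, ..., y_r)` have integral coefficients in a number field `K` and
weight `d = m e`, where `w` has weight `e` and the `y_i` have weight one; the coefficient of `w ^ m`
is one. The towers over `F` are the coverings of degree `m` of projective spaces
`x_0 ^ (d-1) x_1 + x_1 ^ (d-1) x_2 + ... + x_k ^ (d-1) y_0 + F(w, y_0, ..., y_r) = 0`,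
embedded in the total spaces of the line bundles `O(e)`. They are in general not cyclic.

1. If the first tower (`k = 0`) is regular with smooth generic fibre, then all the towers have
   regular proper flat models over the ring of integers of `K`.
2. The assumption of 1. holds if `F` is regular with smooth generic fibre, its section `y_0 = 0` is
   smooth over all points, and `F` satisfies a condition modulo `𝔭 ^ 2` at the primes dividing
   `d - 1`.
3. Monic polynomials: let `g` be a monic polynomial of degree `m ≥ 2` with integral coefficients,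
   separable over `K`, such that the ring `(𝓞 K)[X] / (g)` is regular, and which satisfies a
   condition at its critical points modulo the prime divisors of `d - 1`. Then all the coverings
   `x_0 ^ (d-1) x_1 + x_1 ^ (d-1) x_2 + ... + x_k ^ (d-1) y + y ^ d g(w / y ^ e) = 0`, `d = m e`,
   have regular proper flat models over the ring of integers of `K`.
4. Monogenic extensions: `g` can be the minimal polynomial of `θ` for every extension `L / K` of
   number fields with `𝓞 L = (𝓞 K)[θ]`, under the condition at the prime divisors of `d - 1`.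
5. Quadratic polynomials: the double coverings
   `w ^ 2 + A w y ^ e + b y ^ (2 e) + x_0 ^ (2e-1) x_1 + ... + x_k ^ (2e-1) y = 0`, `e ≥ 2`,
   such that `A ^ 2 - 4 b` is not in `𝔭 ^ 2` for all primes `𝔭`, `A` is not in `𝔭` if `𝔭` contains
   `2`, and `A ^ 2 - 4 b - 4 t ^ p` is not in `𝔭 ^ 2` for all `t` if the prime number `p` divides
   `2 e - 1` and is in `𝔭`. They are smooth over the primes dividing two.
6. Over the rational numbers: `A = 1` and `b` is any integer such that `1 - 4 b` is squarefree and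
   divisible by the prime divisors of `2 e - 1`.
-/

set_option autoImplicit false

open AlgebraicGeometry CategoryTheory CategoryTheory.Limits MvPolynomial

open scoped NumberField

namespace Pool.Agent.Results.MP_6a3dac_ag.MonogenicCovers

/-- The weights: the variable `w = X none` has weight `e`, the variables `X (some i)` have weight
one. -/
def weight {n : ℕ} (e : ℕ) : Option (Fin n) → ℕ := fun o => o.elim e (fun _ => 1)

/-- The value of the variables in the chart `x_s ≠ 0`: `x_s = 1`. -/
noncomputable def chartValue {R : Type} [CommRing R] {n : ℕ} (s : Fin n) :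
    Option (Fin n) → MvPolynomial (Option {j : Fin n // j ≠ s}) R
  | none => X none
  | some j => if h : j = s then 1 else X (some ⟨j, h⟩)

/-- The polynomial in `w` and the variables `x_j`, `j ≠ s`, obtained from `P` by setting `x_s = 1`:
the equation of the weighted hypersurface `P = 0` in the chart `x_s ≠ 0`. -/
noncomputable def chartEquation {R : Type} [CommRing R] {n : ℕ} (s : Fin n)
    (P : MvPolynomial (Option (Fin n)) R) : MvPolynomial (Option {j : Fin n // j ≠ s}) R :=
  aeval (chartValue s) P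

/-- The ideal `Q` of the polynomial ring over `R` lies over `𝔭`. -/
def LiesAbove {R σ : Type} [CommRing R] (𝔭 : Ideal R) (Q : Ideal (MvPolynomial σ R)) : Prop :=
  ∀ r : R, C r ∈ Q ↔ r ∈ 𝔭

/-- For a prime `Q` of `A`, the element `f` is not in the square of the maximal ideal of the
localization of `A` at `Q`. -/
def NotInSquare {A : Type} [CommRing A] (Q : Ideal A) (f : A) : Prop :=
  ∀ h, h ∉ Q → h * f ∉ Q ^ 2

/-- The weighted hypersurface `P(x, w) = 0` over `R` is regular at its points over `𝔭` in the charts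
`x_s ≠ 0` (which cover it, since the coefficient of the power of `w` in `P` is one). -/
def IsRegularCoverAt {R : Type} [CommRing R] (𝔭 : Ideal R) {n : ℕ}
    (P : MvPolynomial (Option (Fin n)) R) : Prop :=
  ∀ (s : Fin n) (Q : Ideal (MvPolynomial (Option {j : Fin n // j ≠ s}) R)), Q.IsPrime →
    LiesAbove 𝔭 Q → chartEquation s P ∈ Q → NotInSquare Q (chartEquation s P)

/-- The partial derivatives of `G` have no common zero (over an algebraic closure) but the origin:
every variable has a power in the ideal they generate. -/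
def IsSmooth {K σ : Type} [Field K] (G : MvPolynomial σ K) : Prop :=
  ∀ i, X i ∈ (Ideal.span (Set.range fun j => pderiv j G)).radical

/-- The polynomial over `K` given by a polynomial with integral coefficients. -/
noncomputable def overK {K σ : Type} [Field K] (F : MvPolynomial σ (𝓞 K)) :
    MvPolynomial σ K :=
  map (algebraMap (𝓞 K) K) F

/-- `F` is weighted homogeneous of weight `m e` and the coefficient of `w ^ m` is one. -/
def IsMonicForm {R : Type} [CommRing R] {n : ℕ} (e m : ℕ)
    (F : MvPolynomial (Option (Fin n)) R) : Prop :=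
  F.IsWeightedHomogeneous (weight e) (m * e) ∧ coeff (Finsupp.single none m) F = 1

/-- The weighted form `x_0 ^ (d-1) x_1 + x_1 ^ (d-1) x_2 + ... + x_k ^ (d-1) x_(k+1) +
F(w, x_(k+1), ..., x_(k+1+r))`. -/
noncomputable def tower {R : Type} [CommRing R] (d : ℕ) {r : ℕ} (k : ℕ)
    (F : MvPolynomial (Option (Fin (r + 1))) R) : MvPolynomial (Option (Fin (r + k + 2))) R :=
  (∑ i ∈ Finset.range (k + 1),
    X (some (Fin.ofNat (r + k + 2) i)) ^ (d - 1) * X (some (Fin.ofNat (r + k + 2) (i + 1)))) +
  rename (Option.map fun j : Fin (r + 1) => Fin.ofNat (r + k + 2) (k + 1 + j)) F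

/-- The weighted hypersurface `F = 0` over the ring of integers is regular with smooth generic
fibre. -/
def IsRegularCover {K : Type} [Field K] {n : ℕ} (F : MvPolynomial (Option (Fin n)) (𝓞 K)) :
    Prop :=
  IsSmooth (overK F) ∧ ∀ 𝔭 : Ideal (𝓞 K), 𝔭.IsPrime → 𝔭 ≠ ⊥ → IsRegularCoverAt 𝔭 F

/-- The section `y_0 = 0` of `F = 0` is smooth over all points of the base: a prime ideal which
contains `y_0`, `F` and the derivatives of `F` with respect to the other variables contains all
variables. -/
def HasSmoothSection {R : Type} [CommRing R] {r : ℕ} (F : MvPolynomial (Option (Fin (r + 1))) R) :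
    Prop :=
  ∀ Q : Ideal (MvPolynomial (Option (Fin (r + 1))) R), Q.IsPrime → X (some 0) ∈ Q → F ∈ Q →
    (∀ j, j ≠ some 0 → pderiv j F ∈ Q) → ∀ j, X j ∈ Q

/-- The ideal `q` contains the partial derivatives of `f`. -/
def IsCritical {R σ : Type} [CommRing R] (q : Ideal (MvPolynomial σ R)) (f : MvPolynomial σ R) :
    Prop :=
  ∀ j, pderiv j f ∈ q

/-- The residue ring is finite and `f + g ^ p` is not in `q ^ 2` for any `g`. -/
def IsWildlyRegular {A : Type} [CommRing A] (p : ℕ) (q : Ideal A) (f : A) : Prop :=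
  Finite (A ⧸ q) ∧ ∀ g, f + g ^ p ∉ q ^ 2

/-- The condition at a prime `𝔭` containing a prime number `p` dividing `d - 1`, on the polynomial
`f` obtained from `F` by setting `y_0 = 1`: every prime `q` of the polynomial ring which lies over
`𝔭` and contains the partial derivatives of `f` has finite residue ring, and `f + g ^ p` is not in
`q ^ 2` for any `g`. -/
def WildCondition {R : Type} [CommRing R] (𝔭 : Ideal R) (d : ℕ) {r : ℕ}
    (F : MvPolynomial (Option (Fin (r + 1))) R) : Prop :=
  ∀ p : ℕ, p.Prime → p ∣ d - 1 → (p : R) ∈ 𝔭 →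
    ∀ q : Ideal (MvPolynomial (Option {j : Fin (r + 1) // j ≠ 0}) R), q.IsPrime →
      LiesAbove 𝔭 q → IsCritical q (chartEquation 0 F) → IsWildlyRegular p q (chartEquation 0 F)

/-- The weighted hypersurface `F = 0` is regular with smooth generic fibre, its section `y_0 = 0` is
smooth over all points, and the wild condition holds. -/
def IsAdmissibleBase {K : Type} [Field K] (d : ℕ) {r : ℕ}
    (F : MvPolynomial (Option (Fin (r + 1))) (𝓞 K)) : Prop :=
  IsRegularCover F ∧ HasSmoothSection F ∧
    ∀ 𝔭 : Ideal (𝓞 K), 𝔭.IsPrime → 𝔭 ≠ ⊥ → WildCondition 𝔭 d F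

/-- The form `y ^ (m e) g (w / y ^ e)`, for a polynomial `g` of degree `m`. -/
noncomputable def homogenization {R : Type} [CommRing R] (e m : ℕ) (g : Polynomial R) :
    MvPolynomial (Option (Fin (0 + 1))) R :=
  ∑ i ∈ Finset.range (m + 1), C (g.coeff i) * X none ^ i * X (some 0) ^ ((m - i) * e)

/-- The ring `R[X] / (g)` is regular: for all primes `𝔮` of `R[X]` containing `g`, the element `g`
is not in the square of the maximal ideal of the localization at `𝔮`. -/
def HasRegularQuotient {R : Type} [CommRing R] (g : Polynomial R) : Prop :=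
  ∀ 𝔮 : Ideal (Polynomial R), 𝔮.IsPrime → g ∈ 𝔮 → NotInSquare 𝔮 g

/-- The condition at the prime divisors `p` of `d - 1`: at the critical points of `g` modulo `p`,
that is, for the primes `𝔮` of `R[X]` containing `p` and the derivative of `g`, the sum of `g` and a
`p`-th power is not in `𝔮 ^ 2`. -/
def CriticalCondition {R : Type} [CommRing R] (d : ℕ) (g : Polynomial R) : Prop :=
  ∀ p : ℕ, p.Prime → p ∣ d - 1 → ∀ 𝔮 : Ideal (Polynomial R), 𝔮.IsPrime →
    (p : Polynomial R) ∈ 𝔮 → Polynomial.derivative g ∈ 𝔮 → ∀ a, g + a ^ p ∉ 𝔮 ^ 2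

/-- The conditions on the polynomial `g` of degree `m`. -/
def IsAdmissiblePolynomial {K : Type} [Field K] (m d : ℕ) (g : Polynomial (𝓞 K)) : Prop :=
  g.Monic ∧ g.natDegree = m ∧ (g.map (algebraMap (𝓞 K) K)).Separable ∧ HasRegularQuotient g ∧
    CriticalCondition d g

/-- The polynomial `X ^ 2 + A X + b`. -/
noncomputable def quadratic {R : Type} [CommRing R] (A b : R) : Polynomial R :=
  Polynomial.X ^ 2 + Polynomial.C A * Polynomial.X + Polynomial.C b

/-- The form `w ^ 2 + w y ^ e + b y ^ (2 e)` over the rational numbers. -/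
noncomputable def rationalForm (e : ℕ) (b : ℤ) : MvPolynomial (Option (Fin (0 + 1))) ℚ :=
  X none ^ 2 + X none * X (some 0) ^ e + C (b : ℚ) * X (some 0) ^ (2 * e)

/-- The conditions on the coefficients of the quadratic polynomial. -/
def IsAdmissibleQuadratic {K : Type} [Field K] (e : ℕ) (A b : 𝓞 K) : Prop :=
  A ^ 2 - 4 * b ≠ 0 ∧ ∀ 𝔭 : Ideal (𝓞 K), 𝔭.IsPrime → 𝔭 ≠ ⊥ →
    A ^ 2 - 4 * b ∉ 𝔭 ^ 2 ∧ (2 ∈ 𝔭 → A ∉ 𝔭) ∧
      ∀ p : ℕ, p.Prime → p ∣ 2 * e - 1 → (p : 𝓞 K) ∈ 𝔭 →
        ∀ t : 𝓞 K, A ^ 2 - 4 * b - 4 * t ^ p ∉ 𝔭 ^ 2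

/-- The dimension of the local ring `A` equals the dimension of its cotangent space. -/
def HasRegularDimension (A : Type) [CommRing A] [IsLocalRing A] : Prop :=
  ringKrullDim A = (((Module.finrank (IsLocalRing.ResidueField A)
    (IsLocalRing.CotangentSpace A) : ℕ) : ℕ∞) : WithBot ℕ∞)

/-- The generic fibre of `g` is isomorphic over `E` to `X` with the morphism `f`. -/
def HasGenericFibre {E : Type} [Field E] {X Y : Scheme.{0}}
    (f : X ⟶ Spec (CommRingCat.of E)) (g : Y ⟶ Spec (CommRingCat.of (𝓞 E))) : Prop :=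
  ∃ e : pullback g (Spec.map (CommRingCat.ofHom (algebraMap (𝓞 E) E))) ≅ X,
    e.hom ≫ f = pullback.snd g (Spec.map (CommRingCat.ofHom (algebraMap (𝓞 E) E)))

/-- The morphism `g` from `Y` is a regular proper flat model over the ring of integers of `E` of `X`
with the morphism `f` to `Spec E`. -/
def IsRegularProperFlatModel {E : Type} [Field E] {X Y : Scheme.{0}}
    (f : X ⟶ Spec (CommRingCat.of E)) (g : Y ⟶ Spec (CommRingCat.of (𝓞 E))) : Prop :=
  IsProper g ∧ Flat g ∧ (∀ y : Y, HasRegularDimension (Y.presheaf.stalk y)) ∧ HasGenericFibre f g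

/-- The structure morphism of `Proj ℬ` over `E`. -/
noncomputable def structureMorphism {E B : Type} [Field E] [CommRing B] [Algebra E B]
    (ℬ : ℕ → Submodule E B) [GradedAlgebra ℬ] : Proj ℬ ⟶ Spec (CommRingCat.of E) :=
  Proj.toSpecZero ℬ ≫ Spec.map (CommRingCat.ofHom (algebraMap E (ℬ 0)))

/-- Every scheme `X` over `E` isomorphic over `E` to the weighted hypersurface `P = 0` has a regular
proper flat model over the ring of integers of `E`. Here the weighted hypersurface is `Proj` of the
graded ring `ℬ` whose part of degree `d` is the part of weight `d e` of `E[x, w] / (P)` (by `j`,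
which identifies the ring with a subring of `E[x, w] / (P)`). -/
def CoverHasModel {E : Type} [Field E] {n : ℕ} (e : ℕ) (P : MvPolynomial (Option (Fin n)) E) :
    Prop :=
  ∀ (B : Type) [CommRing B] [Algebra E B]
    (j : B →ₐ[E] (MvPolynomial (Option (Fin n)) E ⧸ Ideal.span {P})), Function.Injective j →
  ∀ (ℬ : ℕ → Submodule E B) [GradedAlgebra ℬ],
    (∀ d, (ℬ d).map j.toLinearMap = (weightedHomogeneousSubmodule E (weight e) (d * e)).map
      (Ideal.Quotient.mkₐ E (Ideal.span {P})).toLinearMap) →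
  ∀ (X : Scheme.{0}) (f : X ⟶ Spec (CommRingCat.of E)) (i : X ≅ Proj ℬ),
    i.hom ≫ structureMorphism ℬ = f →
  ∃ (Y : Scheme.{0}) (g : Y ⟶ Spec (CommRingCat.of (𝓞 E))), IsRegularProperFlatModel f g

/-- All the towers over the form `F` have models. -/
def TowersHaveModels {E : Type} [Field E] (e m : ℕ) {r : ℕ}
    (F : MvPolynomial (Option (Fin (r + 1))) E) : Prop :=
  ∀ k : ℕ, CoverHasModel e (tower (m * e) k F)

theorem chartValue_eq {R : Type} [CommRing R] {n : ℕ} (s : Fin n) :
    (chartValue s : Option (Fin n) → MvPolynomial (Option {j : Fin n // j ≠ s}) R) =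
      Pool.Agent.R187.WC.tauW s := by
  funext o
  cases o <;> rfl

theorem chartEquation_eq {R : Type} [CommRing R] {n : ℕ} (s : Fin n)
    (P : MvPolynomial (Option (Fin n)) R) :
    chartEquation s P = Pool.Agent.R187.WC.dehW s P := by
  unfold chartEquation Pool.Agent.R187.WC.dehW
  rw [chartValue_eq]

theorem critW_of {R : Type} [CommRing R] {𝔭 : Ideal R} {n : ℕ}
    {P : MvPolynomial (Option (Fin n)) R} (h : IsRegularCoverAt 𝔭 P) :
    Pool.Agent.R187.WC.CritW 𝔭 P := by
  intro s Q hQ hC hP
  rw [← chartEquation_eq] at hP ⊢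
  exact Or.inr (h s Q hQ hC hP)

theorem quaP_coeff {R : Type} [CommRing R] (A b : R) :
    (Pool.Agent.R187.WC.quaP A b).coeff 0 = b ∧ (Pool.Agent.R187.WC.quaP A b).coeff 1 = A ∧
      (Pool.Agent.R187.WC.quaP A b).coeff 2 = 1 := by
  unfold Pool.Agent.R187.WC.quaP
  refine ⟨?_, ?_, ?_⟩ <;> simp [Polynomial.coeff_X, Polynomial.coeff_C, Polynomial.coeff_X_pow]

theorem wildW_of {R : Type} [CommRing R] {𝔭 : Ideal R} {d r : ℕ}
    {F : MvPolynomial (Option (Fin (r + 1))) R} (h : WildCondition 𝔭 d F) :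
    Pool.Agent.R187.WC.WildW 𝔭 d F := by
  unfold WildCondition at h
  simp only [chartEquation_eq] at h
  exact h

theorem result :
    (∀ (K : Type) [Field K] [NumberField K] (e m r : ℕ), 1 ≤ e → 1 ≤ m → 3 ≤ m * e →
      ∀ F : MvPolynomial (Option (Fin (r + 1))) (𝓞 K), IsMonicForm e m F →
      (IsRegularCover (tower (m * e) 0 F) → TowersHaveModels e m (overK F)) ∧
      (IsAdmissibleBase (m * e) F → TowersHaveModels e m (overK F))) ∧
    (∀ (K : Type) [Field K] [NumberField K] (e m : ℕ), 1 ≤ e → 2 ≤ m → 3 ≤ m * e →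
      ∀ g : Polynomial (𝓞 K), IsAdmissiblePolynomial m (m * e) g →
      TowersHaveModels e m (overK (homogenization e m g))) ∧
    (∀ (K L : Type) [Field K] [NumberField K] [Field L] [NumberField L] [Algebra K L]
      (e m : ℕ), 1 ≤ e → 2 ≤ m → 3 ≤ m * e →
      ∀ θ : 𝓞 L, Algebra.adjoin (𝓞 K) {θ} = ⊤ → (minpoly (𝓞 K) θ).natDegree = m →
      CriticalCondition (m * e) (minpoly (𝓞 K) θ) →
      TowersHaveModels e m (overK (homogenization e m (minpoly (𝓞 K) θ)))) ∧
    (∀ (K : Type) [Field K] [NumberField K] (e : ℕ), 2 ≤ e →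
      ∀ A b : 𝓞 K, IsAdmissibleQuadratic e A b →
      TowersHaveModels e 2 (overK (homogenization e 2 (quadratic A b)))) ∧
    (∀ (e : ℕ) (b : ℤ), 2 ≤ e → Squarefree (1 - 4 * b) →
      (∀ p : ℕ, p.Prime → p ∣ 2 * e - 1 → (p : ℤ) ∣ 1 - 4 * b) →
      TowersHaveModels e 2 (rationalForm e b)) := by
  have main : ∀ (K : Type) [Field K] [NumberField K] (n e m : ℕ), 1 ≤ n → 1 ≤ e → 1 ≤ m →
      ∀ P : MvPolynomial (Option (Fin (n + 1))) K, P.IsWeightedHomogeneous (weight e) (m * e) →
      coeff (Finsupp.single none m) P ≠ 0 → Pool.Agent.R187.WC.SmoothW P →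
      Pool.Agent.R187.WC.LocRegW (𝓞 K) e m P → CoverHasModel e P := by
    intro K _ _ n e m hn he hm P hPd hc hsm hloc B _ _ j hj ℬ _ hℬ V f i hi
    exact Pool.Agent.R187.WC.model_OW hn e m he hm P hPd hc hsm hloc j hj ℬ hℬ f i hi
  have tow : ∀ (K : Type) [Field K] [NumberField K] (e m r k : ℕ), 1 ≤ e → 1 ≤ m → 3 ≤ m * e →
      ∀ F : MvPolynomial (Option (Fin (r + 1))) (𝓞 K), IsMonicForm e m F →
      Pool.Agent.R187.WC.SmoothW (Pool.Agent.R187.WC.upW (m * e) (overK F)) →
      (∀ 𝔭 : Ideal (𝓞 K), 𝔭.IsPrime → 𝔭 ≠ ⊥ →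
        Pool.Agent.R187.WC.CritW 𝔭 (Pool.Agent.R187.WC.upW (m * e) F)) →
      CoverHasModel e (tower (m * e) k (overK F)) := by
    rintro K _ _ e m r k he hm hd F ⟨hF, hc⟩ hsm hreg
    obtain ⟨h1, h2, h3, h4⟩ := Pool.Agent.R187.WC.data_chainW e m he hd k F hF hc hsm hreg
    exact main K (r + k + 1) e m (by omega) he hm _ h1 h2 h3 h4
  have mono : ∀ (K : Type) [Field K] [NumberField K] (e m k : ℕ), 1 ≤ e → 2 ≤ m → 3 ≤ m * e →
      ∀ g : Polynomial (𝓞 K), g.Monic → g.natDegree = m →
      (g.map (algebraMap (𝓞 K) K)).Separable → HasRegularQuotient g →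
      CriticalCondition (m * e) g →
      CoverHasModel e (tower (m * e) k (overK (homogenization e m g))) := by
    intro K _ _ e m k he hm hd g hg hgm hsep hreg hw
    obtain ⟨h1, h2⟩ := Pool.Agent.R187.WC.data_ordW e m he hm hd g hg hgm hsep hreg hw
    refine tow K e m 0 k he (by omega) hd (homogenization e m g)
      ⟨Pool.Agent.R187.WC.whom_ordW e m g, ?_⟩ h1 h2
    have h3 := Pool.Agent.R187.WC.coeff_ordW e m he g
    have h4 : g.coeff m = 1 := by
      rw [← hgm]
      exact hg
    rw [h4] at h3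
    exact h3
  have quad : ∀ (K : Type) [Field K] [NumberField K] (e k : ℕ), 2 ≤ e →
      ∀ A b : 𝓞 K, IsAdmissibleQuadratic e A b →
      CoverHasModel e (tower (2 * e) k (overK (homogenization e 2 (quadratic A b)))) := by
    rintro K _ _ e k he A b ⟨hD, hb⟩
    obtain ⟨h1, h2⟩ := Pool.Agent.R187.WC.data_quaW e he A b hD hb
    refine tow K e 2 0 k (by omega) (by norm_num) (by omega) (homogenization e 2 (quadratic A b))
      ⟨Pool.Agent.R187.WC.whom_ordW e 2 _, ?_⟩ h1 h2
    have h3 := Pool.Agent.R187.WC.coeff_ordW e 2 (by omega) (quadratic A b)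
    have h4 : (quadratic A b).coeff 2 = 1 := by
      have h5 := Pool.Agent.R187.WC.monic_quaP A b
      rw [Polynomial.Monic, Polynomial.leadingCoeff, Pool.Agent.R187.WC.natDegree_quaP] at h5
      exact h5
    rw [h4] at h3
    exact h3
  refine ⟨?_, ?_, ?_, fun K _ _ e he A b h k => quad K e k he A b h, ?_⟩
  · intro K _ _ e m r he hm hd F hF
    refine ⟨fun hreg k => ?_, fun hadm k => ?_⟩
    · refine tow K e m r k he hm hd F hF ?_ fun 𝔭 hp h0 => ?_
      · have h1 : overK (tower (m * e) 0 F) = Pool.Agent.R187.WC.upW (m * e) (overK F) := by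
          have h2 := Pool.Agent.R187.WC.map_chainW (algebraMap (𝓞 K) K) (m * e) F 0
          rw [Pool.Agent.R187.WC.chainW_eq (m * e) (map (algebraMap (𝓞 K) K) F) 0] at h2
          exact h2
        intro i
        rw [← h1]
        exact hreg.1 (some i)
      · have h1 : tower (m * e) 0 F = Pool.Agent.R187.WC.upW (m * e) F :=
          Pool.Agent.R187.WC.chainW_eq (m * e) F 0
        rw [← h1]
        exact critW_of (hreg.2 𝔭 hp h0)
    · obtain ⟨hreg, hsec, hw⟩ := hadm
      obtain ⟨h1, h2⟩ := Pool.Agent.R187.WC.base_of_admW e m he hm hd F hF.1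
        (fun i => hreg.1 (some i)) hsec
        (fun 𝔭 hp h0 => ⟨critW_of (hreg.2 𝔭 hp h0), wildW_of (hw 𝔭 hp h0)⟩)
      exact tow K e m r k he hm hd F hF h1 h2
  · rintro K _ _ e m he hm hd g ⟨h1, h2, h3, h4, h5⟩ k
    exact mono K e m k he hm hd g h1 h2 h3 h4 h5
  · intro K L _ _ _ _ _ e m he hm hd θ hθ hdeg hw k
    exact mono K e m k he hm hd _ (minpoly.monic (Algebra.IsIntegral.isIntegral θ)) hdeg
      (Pool.Agent.R187.WC.separable_minpoly θ) (Pool.Agent.R187.WC.reg_minpoly θ hθ) hw
  · intro e b he hsq hdiv k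
    have h1 : rationalForm e b =
        overK (homogenization e 2 (quadratic (1 : 𝓞 ℚ) (b : 𝓞 ℚ))) := by
      have h2 : overK (homogenization e 2 (quadratic (1 : 𝓞 ℚ) (b : 𝓞 ℚ))) =
          Pool.Agent.R187.WC.ordW e 2 (Pool.Agent.R187.WC.quaP (1 : ℚ) (b : ℚ)) := by
        have h3 := Pool.Agent.R187.WC.map_ordW (algebraMap (𝓞 ℚ) ℚ) e 2
          (quadratic (1 : 𝓞 ℚ) (b : 𝓞 ℚ))
        have h4 : (quadratic (1 : 𝓞 ℚ) (b : 𝓞 ℚ)).map (algebraMap (𝓞 ℚ) ℚ) =
            Pool.Agent.R187.WC.quaP (1 : ℚ) (b : ℚ) := by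
          have h5 := Pool.Agent.R187.WC.map_quaP (algebraMap (𝓞 ℚ) ℚ) (1 : 𝓞 ℚ) (b : 𝓞 ℚ)
          rw [map_one, map_intCast] at h5
          exact h5
        rw [h4] at h3
        exact h3
      rw [h2]
      unfold Pool.Agent.R187.WC.ordW rationalForm
      obtain ⟨c0, c1, c2⟩ := quaP_coeff (1 : ℚ) (b : ℚ)
      have e1 : (2 - 1) * e = e := by omega
      have e2 : (2 - 2) * e = 0 := by omega
      rw [Finset.sum_range_succ, Finset.sum_range_succ, Finset.sum_range_one, c0, c1, c2, e1, e2,
        Nat.sub_zero, C_1]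
      ring
    rw [h1]
    refine quad ℚ e k he 1 (b : 𝓞 ℚ) ⟨?_, fun 𝔭 hp h0 => ?_⟩
    · have h2 : (1 : 𝓞 ℚ) ^ 2 - 4 * (b : 𝓞 ℚ) = ((1 - 4 * b : ℤ) : 𝓞 ℚ) := by
        push_cast
        ring
      rw [h2]
      exact Int.cast_ne_zero.2 hsq.ne_zero
    · obtain ⟨h2, h3⟩ := Pool.Agent.R187.WC.rat_quad b e (by omega) hsq hdiv 𝔭 hp
      exact ⟨h2, fun _ => (Ideal.ne_top_iff_one 𝔭).1 hp.ne_top, h3⟩

end Pool.Agent.Results.MP_6a3dac_ag.MonogenicCovers
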